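import Pool.Agent.H76.ND.Targets2

/-!
# Module RGS of MP_57ddd5_pr, Part D (helper7)
-/

open MeasureTheory ProbabilityTheory
open scoped ENNReal

namespace Pool.Agent.H7.ND
open Pool.Agent.H99.NS Pool.Agent.H22.LPP Pool.Agent.H95.INS Pool.Agent.H76.ND

theorem lv_succ (i : ℕ) : lv (i + 1) = 32 * 64 ^ i := by simp [lv]

theorem lv_le {a i : ℕ} (ha : 1 ≤ a) (h : a ≤ i) : 2 * lv a ≤ 64 ^ i := by
  obtain ⟨b, rfl⟩ : ∃ b, a = b + 1 := ⟨a - 1, by omega⟩
  rw [lv_succ]
  have h1 : (64 : ℤ) ^ (b + 1) ≤ 64 ^ i := pow_le_pow_right₀ (by norm_num) h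
  rw [pow_succ] at h1
  linarith

theorem lv_nonneg (a : ℕ) : 0 ≤ lv a := by unfold lv; positivity

theorem pf_RGS : T_RGS := by
  intro Xc a I o e z t1 g ha haI hR h1 h2 h3 h4
  have hI := lv_le ha haI
  have hIs := lv_succ I
  have ha0 := lv_nonneg a
  have hpos : (0 : ℤ) < 64 ^ I := by positivity
  refine ⟨?_, ?_, ?_⟩
  · intro i hi hiI
    have hi1 := lv_le ha hi
    have hi2 := lv_succ i
    have hm : (64 : ℤ) ^ i ≤ 64 ^ I := pow_le_pow_right₀ (by norm_num) hiI
    have hp : (0 : ℤ) < 64 ^ i := by positivity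
    have h := hR (t1 + z.1) (-lv (i + 1) + z.1) i hi (by linarith) (by linarith) (by linarith)
      (by linarith) (by rw [abs_le]; constructor <;> linarith)
    simpa using h
  · intro i hi hiI
    have hi1 := lv_le ha hi
    have hi2 := lv_succ i
    have hm : (64 : ℤ) ^ i ≤ 64 ^ I := pow_le_pow_right₀ (by norm_num) hiI
    have hp : (0 : ℤ) < 64 ^ i := by positivity
    have h := hR (t1 + z.1) (lv (i + 1) + z.1) i hi (by linarith) (by linarith) (by linarith)
      (by linarith) (by rw [abs_le]; constructor <;> linarith)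
    simpa using h
  · intro r hr1 hr2
    have hi1 := lv_le ha le_rfl
    have hm : (64 : ℤ) ^ a ≤ 64 ^ I := pow_le_pow_right₀ (by norm_num) haI
    have hp : (0 : ℤ) < 64 ^ a := by positivity
    have h := hR (t1 + z.1) (r + z.1) a le_rfl (by linarith) (by linarith) (by linarith)
      (by linarith) (by rw [abs_le]; constructor <;> linarith)
    simpa using h

end Pool.Agent.H7.ND
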