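import Pool.Agent.H76.ND.Targets2

/-!
# Module TC0 of MP_57ddd5_pr, Part D (helper7)
-/

open MeasureTheory ProbabilityTheory
open scoped ENNReal

namespace Pool.Agent.H7.ND
open Pool.Agent.H99.NS Pool.Agent.H22.LPP Pool.Agent.H95.INS Pool.Agent.H76.ND
open Pool.Agent.H97.NF (ff tile)

theorem ff_eq (n : ℕ) (ω : Env) : ff n ω = T ω (0, 0) (eN n) := rfl

theorem reach_eN (n : ℕ) : Reach (0, 0) (eN n) := by
  unfold Reach eN
  refine ⟨by simp, ?_⟩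
  simp

theorem tc0_aux {a n : ℕ} {z : ℤ × ℤ} {ω ω' : Env} (h : ∀ x ∉ tile a z, ω x = ω' x)
    (hlt : ff n ω' < ff n ω) : ∀ g, Near ω (0, 0) (eN n) 0 g → ∃ r : ℤ, 0 < r ∧ r ≤ 2 * n ∧
    (r, g r) ∈ tile a z := by
  intro g hg
  by_contra hcon
  push Not at hcon
  have h1 : wt ω (0, 0).1 (eN n).1 g = wt ω' (0, 0).1 (eN n).1 g := by
    refine wt_congr fun r hr1 hr2 => h _ (hcon r hr1 ?_)
    simpa [eN] using hr2
  have h2 := le_T ω' (u := (0, 0)) (v := eN n) (by simp [eN]) hg.1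
  have h3 := hg.2
  rw [ff_eq, ff_eq] at hlt
  linarith

theorem pf_TC0 : T_TC0 := by
  intro a n z ω ω' h
  refine ⟨tc0_aux h, fun hne => ?_⟩
  have key : ∀ ω ω' : Env, (∀ x ∉ tile a z, ω x = ω' x) → ff n ω' < ff n ω → Tch a n z ω := by
    intro ω ω' h hlt
    obtain ⟨g, hg, hT, -⟩ := T_attained ω (reach_eN n)
    have hN : Near ω (0, 0) (eN n) 0 g := ⟨hg, by rw [hT]; simp⟩
    obtain ⟨r, h1, h2, h3⟩ := tc0_aux h hlt g hN
    exact ⟨g, r, hN, h1, h2, h3⟩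
  rcases lt_or_gt_of_ne hne with h1 | h1
  · exact Or.inr (key ω' ω (fun x hx => (h x hx).symm) h1)
  · exact Or.inl (key ω ω' h h1)

end Pool.Agent.H7.ND
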